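import Mathlib
import Pool.Agent.V11216.CoarseBase

/-!
# MP_bddfa7_gt : products of so-bounded balleans are so-bounded
-/

namespace Pool.Agent.Results.MP_bddfa7_gt.SoProduct

open Set Pool.Agent.V11216.BalleanCore Pool.Agent.V11216.CoarseBase

/-- Slowly oscillating functions: for every entourage `E` and `ε > 0` there is a bounded set `B`
with `diam f(E[x]) < ε` for all `x ∉ B`. -/
def SlowlyOscillating {X : Type*} (𝓔 : Set (Set (X × X))) (f : X → ℝ) : Prop :=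
  ∀ E ∈ 𝓔, ∀ ε : ℝ, 0 < ε → ∃ B, IsBounded 𝓔 B ∧
    ∀ x, x ∉ B → Metric.ediam (f '' ball E x) < ENNReal.ofReal ε

/-- so-bounded balleans: every slowly oscillating function is bounded off a bounded set. -/
def SoBounded {X : Type*} (𝓔 : Set (Set (X × X))) : Prop :=
  ∀ f : X → ℝ, SlowlyOscillating 𝓔 f → ∃ B, IsBounded 𝓔 B ∧ ∃ M : ℝ, ∀ x, x ∉ B → |f x| ≤ M

/-- The product coarse structure: the coarse structure generated by the sets `E × F`. -/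
def prodCoarse {X Y : Type*} (𝓔 : Set (Set (X × X))) (𝓕 : Set (Set (Y × Y))) :
    Set (Set ((X × Y) × (X × Y))) :=
  ⋂₀ {𝓖 | IsCoarse 𝓖 ∧ ∀ E ∈ 𝓔, ∀ F ∈ 𝓕, prodRel E F ∈ 𝓖}

theorem prodCoarse_eq {X Y : Type*} {𝓔 : Set (Set (X × X))} {𝓕 : Set (Set (Y × Y))}
    (hX : IsCoarse 𝓔) (hY : IsCoarse 𝓕) :
    prodCoarse 𝓔 𝓕 = {G | ∃ E ∈ 𝓔, ∃ F ∈ 𝓕, G ⊆ prodRel E F} := by
  apply Subset.antisymm
  · intro G hG
    exact hG _ ⟨isCoarse_prod hX hY, fun E hE F hF => ⟨E, hE, F, hF, Subset.rfl⟩⟩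
  · rintro G ⟨E, hE, F, hF, hG⟩ 𝓖 h𝓖
    exact h𝓖.1.subset _ (h𝓖.2 E hE F hF) G hG

theorem lipBdd {X Y : Type*} {𝓔 : Set (Set (X × X))} {𝓕 : Set (Set (Y × Y))}
    (hX : IsBallean 𝓔) (hY : IsBallean 𝓕) (hXs : SoBounded 𝓔) [Nonempty Y] (f : X → Y → ℝ)
    (hf : ∀ E ∈ refl𝓔 𝓔, ∀ F ∈ refl𝓔 𝓕, ∀ ε : ℝ, 0 < ε → ∃ B C, Bdd (refl𝓔 𝓔) B ∧
      Bdd (refl𝓔 𝓕) C ∧ ∀ x y, ¬ (x ∈ B ∧ y ∈ C) → ∀ x' y', (x, x') ∈ E → (y, y') ∈ F →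
        |f x y - f x' y'| ≤ ε) : LipBdd (refl𝓔 𝓔) f := by
  intro φ hφ
  obtain ⟨B, hB, M, hM⟩ := hXs φ (by
    intro E hE ε hε
    obtain ⟨B, C, hB, hC, h⟩ := hf _ (union_diag_mem hX.toIsCoarse hE)
      _ (union_diag_mem hY.toIsCoarse hY.diag) (ε / 3) (by positivity)
    refine ⟨B, (bdd_iff hX.toIsCoarse).1 hB, fun x hx => ?_⟩
    refine lt_of_le_of_lt (ediam_le_of_abs (c := ε / 3) (m := φ x) (by positivity) ?_)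
      ((ENNReal.ofReal_lt_ofReal_iff hε).2 (by linarith))
    intro x' hx'
    apply hφ
    intro y
    exact h x y (fun h => hx h.1) x' y (Or.inl hx') (Or.inr rfl))
  exact ⟨B, (bdd_iff hX.toIsCoarse).2 hB, M, hM⟩

/-- The product of two so-bounded balleans is so-bounded. -/
theorem result {X Y : Type*} (𝓔 : Set (Set (X × X))) (𝓕 : Set (Set (Y × Y)))
    (hX : IsBallean 𝓔) (hY : IsBallean 𝓕) (hXs : SoBounded 𝓔) (hYs : SoBounded 𝓕) :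
    SoBounded (prodCoarse 𝓔 𝓕) := by
  rw [prodCoarse_eq hX.toIsCoarse hY.toIsCoarse]
  intro f hf
  have hne : Nonempty (X × Y) := by
    obtain ⟨B, ⟨E, hE, p, hp⟩, -⟩ := hf _ ⟨_, hX.diag, _, hY.diag, Subset.rfl⟩ 1 one_pos
    exact ⟨p⟩
  have : Nonempty X := hne.map Prod.fst
  have : Nonempty Y := hne.map Prod.snd
  -- the oscillation condition
  have key : ∀ E ∈ refl𝓔 𝓔, ∀ F ∈ refl𝓔 𝓕, ∀ ε : ℝ, 0 < ε → ∃ B C, Bdd (refl𝓔 𝓔) B ∧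
      Bdd (refl𝓔 𝓕) C ∧ ∀ x y, ¬ (x ∈ B ∧ y ∈ C) → ∀ x' y', (x, x') ∈ E → (y, y') ∈ F →
        |f (x, y) - f (x', y')| ≤ ε := by
    intro E hE F hF ε hε
    obtain ⟨D, hD, h⟩ := hf (prodRel E F) ⟨E, hE.1, F, hF.1, Subset.rfl⟩ ε hε
    obtain ⟨B, C, hB, hC, hBC⟩ := bounded_prod hD
    refine ⟨B, C, (bdd_iff hX.toIsCoarse).2 hB, (bdd_iff hY.toIsCoarse).2 hC, ?_⟩
    intro x y hxy x' y' hx' hy'
    have hnD : (x, y) ∉ D := fun h' => hxy (hBC _ h')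
    exact abs_le_of_ediam (S := ball (prodRel E F) (x, y)) hε.le (h _ hnD).le
      ⟨hE.2 x, hF.2 y⟩ ⟨hx', hy'⟩
  have h0 : Emu (refl𝓔 𝓔) (refl𝓔 𝓕) (fun x y => f (x, y)) := by
    intro E hE F hF
    obtain ⟨B, C, hB, hC, h⟩ := key E hE F hF 1 one_pos
    exact ⟨B, C, hB, hC, 1, h⟩
  have hx : LipBdd (refl𝓔 𝓔) (fun x y => f (x, y)) := lipBdd hX hY hXs _ key
  have hy : LipBdd (refl𝓔 𝓕) (fun y x => f (x, y)) := by
    apply lipBdd hY hX hYs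
    intro F hF E hE ε hε
    obtain ⟨B, C, hB, hC, h⟩ := key E hE F hF ε hε
    exact ⟨C, B, hC, hB, fun y x hyx y' x' hy hx => h x y (fun h => hyx ⟨h.2, h.1⟩) x' y' hx hy⟩
  obtain ⟨B, C, hB, hC, M, hM⟩ := core (isBall_refl hX) (isBall_refl hY) h0 hx hy
  obtain ⟨E, hE, x, hBE⟩ := hB
  obtain ⟨F, hF, y, hCF⟩ := hC
  refine ⟨B ×ˢ C, ⟨prodRel E F, ⟨E, hE.1, F, hF.1, Subset.rfl⟩, (x, y), ?_⟩, M, ?_⟩
  · rintro p ⟨h1, h2⟩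
    exact ⟨hBE _ h1, hCF _ h2⟩
  · rintro ⟨x, y⟩ h
    exact hM x y (fun h' => h h')

end Pool.Agent.Results.MP_bddfa7_gt.SoProduct
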